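import Pool.Agent.Helper58.AM.Sheet

/-! # Row FIL -/

set_option autoImplicit false

open Finset

namespace Pool.Agent.Helper58.AM

theorem st_FIL (h1 : ST_BLK) : ST_FIL := by
  intro M V _ _ _ _ f b h W hW hz hc
  classical
  set W1 := W.filter (fun w => f w = 0) with hW1
  set W0 := W.filter (fun w => f w ≠ 0) with hW0
  have hsplit : W1.card + W0.card = W.card := Finset.card_filter_add_card_filter_not _
  have hsum1 : ∀ Y ⊆ W1, ∑ z ∈ Y, f z = 0 := fun Y hY =>
    Finset.sum_eq_zero fun z hz => (Finset.mem_filter.1 (hY hz)).2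
  by_cases hb : b ≤ W1.card
  · obtain ⟨B, hB, hBc⟩ := Finset.exists_subset_card_eq hb
    exact ⟨B, hB.trans (Finset.filter_subset _ _), hBc, hsum1 B hB⟩
  · push Not at hb
    let F := W0.powerset.filter (fun T => ∑ z ∈ T, f z = 0 ∧ T.card ≤ b)
    have hF : F.Nonempty := ⟨∅, by simp [F]⟩
    obtain ⟨T, hT, hmax⟩ := Finset.exists_max_image F Finset.card hF
    obtain ⟨hT1, hT2, hT3⟩ : T ⊆ W0 ∧ ∑ z ∈ T, f z = 0 ∧ T.card ≤ b := by
      have := Finset.mem_filter.1 hT
      exact ⟨Finset.mem_powerset.1 this.1, this.2.1, this.2.2⟩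
    have hge : b ≤ T.card + W1.card := by
      by_contra hcon
      push Not at hcon
      have hcard : (W0 \ T).card = W0.card - T.card := Finset.card_sdiff_of_subset hT1
      have hle : T.card ≤ W0.card := Finset.card_le_card hT1
      obtain ⟨Z, hZ, hZn, hZc, hZs⟩ := h1 M V f h (W0 \ T)
        (fun w hw => (Finset.mem_filter.1 (Finset.mem_sdiff.1 hw).1).2)
        (fun x => (Finset.card_le_card (Finset.filter_subset_filter _
          (Finset.sdiff_subset.trans (Finset.filter_subset _ _)))).trans (hW x))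
        (by omega)
      have hdis : Disjoint T Z := Finset.disjoint_left.2 fun a ha hb =>
        (Finset.mem_sdiff.1 (hZ hb)).2 ha
      have hTZ : T ∪ Z ∈ F := by
        refine Finset.mem_filter.2 ⟨Finset.mem_powerset.2
          (Finset.union_subset hT1 (hZ.trans Finset.sdiff_subset)), ?_, ?_⟩
        · rw [Finset.sum_union hdis, hT2, hZs, add_zero]
        · rw [Finset.card_union_of_disjoint hdis]
          omega
      have h3 := hmax _ hTZ
      rw [Finset.card_union_of_disjoint hdis] at h3
      have h4 := hZn.card_pos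
      omega
    obtain ⟨Y, hY, hYc⟩ := Finset.exists_subset_card_eq (s := W1) (n := b - T.card) (by omega)
    have hdis : Disjoint T Y := Finset.disjoint_left.2 fun a ha hb =>
      (Finset.mem_filter.1 (hT1 ha)).2 (Finset.mem_filter.1 (hY hb)).2
    refine ⟨T ∪ Y, Finset.union_subset (hT1.trans (Finset.filter_subset _ _))
      (hY.trans (Finset.filter_subset _ _)), ?_, ?_⟩
    · rw [Finset.card_union_of_disjoint hdis, hYc]
      omega
    · rw [Finset.sum_union hdis, hT2, hsum1 Y hY, add_zero]

end Pool.Agent.Helper58.AM
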